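import Mathlib
import Pool.Agent.Helper34.E243.MainQ

set_option autoImplicit false

namespace Pool.Agent.Helper34.E243Quadratic

open Finset Pool.Agent.Helper34.E243

lemma num_ineq (t : ℕ) (ht : 4 ≤ t) :
    ∃ s : ℕ, (2 : ℝ) ^ (t.choose 2) * 24 ^ (4 * (s * s)) ≤ 3 ^ (4 * (t * s)) := by
  rcases Nat.lt_or_ge t 5 with h5 | h5
  · have : t = 4 := by omega
    subst this
    refine ⟨1, ?_⟩
    norm_num [Nat.choose]
  · obtain ⟨s, r, hr, hs, rfl⟩ : ∃ s r : ℕ, r < 5 ∧ 1 ≤ s ∧ t = 5 * s + r :=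
      ⟨t / 5, t % 5, Nat.mod_lt _ (by norm_num), by omega, by omega⟩
    refine ⟨s, ?_⟩
    have hC : 2 * (5 * s + r).choose 2 = (5 * s + r) * (5 * s + r - 1) := by
      rw [Nat.choose_two_right]
      exact Nat.mul_div_cancel' (Nat.even_mul_pred_self _).two_dvd
    have hexp : 12 * ((5 * s + r).choose 2 + 12 * (s * s)) ≤ 19 * (4 * (s * (4 * s + r))) := by
      obtain ⟨w, hw⟩ : ∃ w, 5 * s + r = w + 1 := ⟨5 * s + r - 1, by omega⟩
      rw [hw, Nat.add_sub_cancel] at hC
      rw [hw]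
      have hw' : (w : ℤ) = 5 * s + r - 1 := by omega
      zify at hC ⊢
      rw [hw'] at hC
      have hs' : (1 : ℤ) ≤ s := by exact_mod_cast hs
      have hr' : (r : ℤ) < 5 := by exact_mod_cast hr
      have hr0 : (0 : ℤ) ≤ r := by positivity
      nlinarith [mul_nonneg (sub_nonneg.2 hs') hr0, mul_nonneg (sub_nonneg.2 hs') (sub_nonneg.2 hs'),
        mul_nonneg hr0 (by linarith : (0 : ℤ) ≤ 4 - r)]
    have hA : (2 : ℝ) ^ ((5 * s + r).choose 2 + 12 * (s * s)) ≤ 3 ^ (4 * (s * (4 * s + r))) := by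
      have h12 : ((2 : ℝ) ^ ((5 * s + r).choose 2 + 12 * (s * s))) ^ 12 ≤
          (3 ^ (4 * (s * (4 * s + r)))) ^ 12 := by
        calc ((2 : ℝ) ^ ((5 * s + r).choose 2 + 12 * (s * s))) ^ 12
            = 2 ^ (12 * ((5 * s + r).choose 2 + 12 * (s * s))) := by rw [← pow_mul, mul_comm]
          _ ≤ 2 ^ (19 * (4 * (s * (4 * s + r)))) := pow_le_pow_right₀ (by norm_num) hexp
          _ = ((2 : ℝ) ^ 19) ^ (4 * (s * (4 * s + r))) := by rw [pow_mul]
          _ ≤ ((3 : ℝ) ^ 12) ^ (4 * (s * (4 * s + r))) :=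
              pow_le_pow_left₀ (by norm_num) (by norm_num) _
          _ = (3 ^ (4 * (s * (4 * s + r)))) ^ 12 := by rw [← pow_mul, ← pow_mul, mul_comm]
      exact le_of_pow_le_pow_left₀ (by norm_num) (by positivity) h12
    calc (2 : ℝ) ^ ((5 * s + r).choose 2) * 24 ^ (4 * (s * s))
        = 2 ^ ((5 * s + r).choose 2 + 12 * (s * s)) * 3 ^ (4 * (s * s)) := by
          rw [show (24 : ℝ) = 2 ^ 3 * 3 by norm_num, mul_pow, ← pow_mul, pow_add,
            show 3 * (4 * (s * s)) = 12 * (s * s) by ring]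
          ring
      _ ≤ 3 ^ (4 * (s * (4 * s + r))) * 3 ^ (4 * (s * s)) := by gcongr
      _ = 3 ^ (4 * ((5 * s + r) * s)) := by
          rw [← pow_add]
          congr 1
          ring

/-- If the chromatic number of the intersection is at least two, the family has size at most half
of all graphs. -/
lemma half (n t : ℕ) (ht : 2 ≤ t) (F : Finset (SimpleGraph (Fin n)))
    (hF : ∀ G ∈ F, ∀ H ∈ F, ((t : ℕ∞) ≤ (G ⊓ H).chromaticNumber)) :
    2 * (F.card : ℝ) ≤ 2 ^ (n.choose 2) := by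
  classical
  rcases F.eq_empty_or_nonempty with hemp | hFne
  · rw [hemp, card_empty, Nat.cast_zero, mul_zero]; positivity
  have hn : 0 < n := by
    rcases Nat.eq_zero_or_pos n with hn0 | hn
    · obtain ⟨G, hG⟩ := hFne
      have h1 := hF G hG G hG
      have hcol0 : (G ⊓ G).Colorable 0 := by
        refine ⟨SimpleGraph.Coloring.mk (fun v => absurd v.2 (by omega)) ?_⟩
        intro v; exact absurd v.2 (by omega)
      have h3 := h1.trans hcol0.chromaticNumber_le
      have : t ≤ 0 := by exact_mod_cast h3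
      omega
    · exact hn
  have : Nonempty (Fin n) := ⟨⟨0, hn⟩⟩
  set S : Finset (Sym2 (Fin n)) := (⊤ : SimpleGraph (Fin n)).edgeFinset with hSdef
  have hScard : S.card = n.choose 2 := by
    rw [hSdef, SimpleGraph.card_edgeFinset_top_eq_card_choose_two, Fintype.card_fin]
  have hS : ∀ e ∈ S, ¬ e.IsDiag := by
    intro e he
    rw [hSdef, SimpleGraph.mem_edgeFinset] at he
    exact SimpleGraph.not_isDiag_of_mem_edgeSet _ he
  set 𝒜 : Finset (Finset (Sym2 (Fin n))) := F.image (fun G => G.edgeFinset) with hA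
  set ℬ : Finset (Finset (Sym2 (Fin n))) := F.image (fun G => (Gᶜ).edgeFinset) with hB
  have hAc : 𝒜.card = F.card := by
    rw [hA]
    apply card_image_of_injective
    intro G H h
    exact SimpleGraph.edgeFinset_inj.1 h
  have hBc : ℬ.card = F.card := by
    rw [hB]
    apply card_image_of_injective
    intro G H h
    have h2 := SimpleGraph.edgeFinset_inj.1 h
    exact compl_injective h2
  have hAS : ∀ A ∈ 𝒜, A ⊆ S := by
    intro A hA'
    obtain ⟨G, _, rfl⟩ := mem_image.1 hA'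
    intro e he
    rw [SimpleGraph.mem_edgeFinset] at he
    rw [hSdef, SimpleGraph.mem_edgeFinset]
    exact SimpleGraph.edgeSet_mono le_top he
  have hBS : ∀ B ∈ ℬ, B ⊆ S := by
    intro B hB'
    obtain ⟨G, _, rfl⟩ := mem_image.1 hB'
    intro e he
    rw [SimpleGraph.mem_edgeFinset] at he
    rw [hSdef, SimpleGraph.mem_edgeFinset]
    exact SimpleGraph.edgeSet_mono le_top he
  by_contra hcon
  push Not at hcon
  obtain ⟨c, A, hA', B, hB', hAB⟩ := cross (m := 1) Nat.one_pos S hS 𝒜 ℬ (hFne.image _)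
    (hFne.image _) hAS hBS (by
      simp only [Nat.cast_one, div_one, Real.rpow_one]
      rw [hAc, hBc, hScard]
      linarith)
  have hm : mono S c = S := by
    ext e
    rw [mem_mono]
    refine ⟨fun h => h.1, fun h => ⟨h, ?_⟩⟩
    induction e using Sym2.ind with
    | _ u v =>
      simp only [Sym2.map_mk, Sym2.mk_isDiag_iff]
      exact Subsingleton.elim _ _
  rw [hm, inter_eq_left.2 (hAS A hA'), inter_eq_left.2 (hBS B hB')] at hAB
  obtain ⟨G, hG, rfl⟩ := mem_image.1 hA'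
  obtain ⟨H, hH, hHB⟩ := mem_image.1 hB'
  have hcol : (G ⊓ H).Colorable 1 := by
    refine ⟨SimpleGraph.Coloring.mk (fun _ => (0 : Fin 1)) ?_⟩
    intro u v huv
    exfalso
    rw [SimpleGraph.inf_adj] at huv
    have h1 : s(u, v) ∈ G.edgeFinset := by
      rw [SimpleGraph.mem_edgeFinset, SimpleGraph.mem_edgeSet]; exact huv.1
    rw [hAB, ← hHB] at h1
    simp only [SimpleGraph.mem_edgeFinset, SimpleGraph.mem_edgeSet, SimpleGraph.compl_adj] at h1
    exact h1.2 huv.2
  have h3 := (hF G hG H hH).trans hcol.chromaticNumber_le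
  have : t ≤ 1 := by exact_mod_cast h3
  omega

/-- Every `t`-chromatic-intersecting family of graphs on `n` labelled vertices has at most
`2 ^ (C(n,2) - C(t,2) / 8)` members. -/
theorem result (n t : ℕ) (F : Finset (SimpleGraph (Fin n)))
    (hF : ∀ G ∈ F, ∀ H ∈ F, ((t : ℕ∞) ≤ (G ⊓ H).chromaticNumber)) :
    (F.card : ℝ) ≤ 2 ^ ((n.choose 2 : ℝ) - (t.choose 2 : ℝ) / 8) := by
  have key : (F.card : ℝ) ^ 8 * 2 ^ (t.choose 2) ≤ 2 ^ (8 * n.choose 2) := by
    rcases Nat.lt_or_ge t 4 with h4 | h4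
    · rcases Nat.lt_or_ge t 2 with h2 | h2
      · have hC : t.choose 2 = 0 := Nat.choose_eq_zero_of_lt h2
        rw [hC, pow_zero, mul_one]
        have h := main_s n t 0 F hF
        rw [mul_zero, mul_zero, pow_zero, pow_zero, one_mul, one_mul] at h
        calc (F.card : ℝ) ^ 8 = ((F.card : ℝ) ^ 2) ^ 4 := by rw [← pow_mul]
          _ ≤ (4 ^ (n.choose 2)) ^ 4 := pow_le_pow_left₀ (by positivity) h 4
          _ = 2 ^ (8 * n.choose 2) := by
            rw [show (4 : ℝ) = 2 ^ 2 by norm_num, ← pow_mul, ← pow_mul]; congr 1; ring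
      · have h := half n t h2 F hF
        have hC : t.choose 2 ≤ 8 := by
          interval_cases t <;> decide
        calc (F.card : ℝ) ^ 8 * 2 ^ (t.choose 2) ≤ (F.card : ℝ) ^ 8 * 2 ^ 8 := by
              gcongr
              norm_num
          _ = (2 * (F.card : ℝ)) ^ 8 := by ring
          _ ≤ (2 ^ (n.choose 2)) ^ 8 := pow_le_pow_left₀ (by positivity) h 8
          _ = 2 ^ (8 * n.choose 2) := by rw [← pow_mul, mul_comm]
    · obtain ⟨s, hs⟩ := num_ineq t h4
      have h := main_s n t s F hF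
      have h4' := pow_le_pow_left₀ (by positivity) h 4
      rw [mul_pow, mul_pow, ← pow_mul, ← pow_mul, ← pow_mul, ← pow_mul] at h4'
      have hpos : (0 : ℝ) < 24 ^ (4 * (s * s)) := by positivity
      have e1 : (F.card : ℝ) ^ 8 * 2 ^ (t.choose 2) * 24 ^ (4 * (s * s)) ≤
          2 ^ (8 * n.choose 2) * 24 ^ (4 * (s * s)) := by
        calc (F.card : ℝ) ^ 8 * 2 ^ (t.choose 2) * 24 ^ (4 * (s * s))
            = (F.card : ℝ) ^ 8 * (2 ^ (t.choose 2) * 24 ^ (4 * (s * s))) := by ring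
          _ ≤ (F.card : ℝ) ^ 8 * 3 ^ (4 * (t * s)) := by gcongr
          _ = 3 ^ (t * s * 4) * (F.card : ℝ) ^ (2 * 4) := by
            rw [mul_comm 4 (t * s)]; ring
          _ ≤ 24 ^ (s * s * 4) * 4 ^ (n.choose 2 * 4) := h4'
          _ = 2 ^ (8 * n.choose 2) * 24 ^ (4 * (s * s)) := by
            rw [show (4 : ℝ) = 2 ^ 2 by norm_num, ← pow_mul, mul_comm (s * s) 4,
              show 2 * (n.choose 2 * 4) = 8 * n.choose 2 by ring]
            ring
      exact le_of_mul_le_mul_right e1 hpos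
  have hx : (F.card : ℝ) ^ 8 ≤ ((2 : ℝ) ^ ((n.choose 2 : ℝ) - (t.choose 2 : ℝ) / 8)) ^ 8 := by
    rw [← Real.rpow_natCast ((2 : ℝ) ^ ((n.choose 2 : ℝ) - (t.choose 2 : ℝ) / 8)) 8,
      ← Real.rpow_mul (by norm_num)]
    have e2 : ((n.choose 2 : ℝ) - (t.choose 2 : ℝ) / 8) * ((8 : ℕ) : ℝ) =
        ((8 * n.choose 2 : ℕ) : ℝ) - ((t.choose 2 : ℕ) : ℝ) := by
      push_cast; ring
    rw [e2, Real.rpow_sub (by norm_num), Real.rpow_natCast, Real.rpow_natCast,
      le_div_iff₀ (by positivity)]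
    exact key
  exact le_of_pow_le_pow_left₀ (by norm_num) (by positivity) hx

end Pool.Agent.Helper34.E243Quadratic
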