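import Mathlib

/-!
# Elementary fourth moment bound for cubic quadratic-character sums

Module H2 of the plan for `MP_ed3816_nt`.
-/

namespace KumWA

open Finset

section moment

variable {p : ℕ} [Fact p.Prime]

/-- evaluation of the cubic with coefficient vector `c` -/
def ev (c : Fin 4 → ZMod p) (w : ZMod p) : ZMod p := ∑ k : Fin 4, c k * w ^ (k : ℕ)

lemma ev_add_smul (c v : Fin 4 → ZMod p) (t w : ZMod p) :
    ev (fun k => c k + t * v k) w = ev c w + t * ev v w := by
  unfold ev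
  rw [Finset.mul_sum, ← Finset.sum_add_distrib]
  exact Finset.sum_congr rfl fun k _ => by ring

lemma sum_chi_affine (hp : p ≠ 2) (A B : ZMod p) (hB : B ≠ 0) :
    ∑ t : ZMod p, quadraticChar (ZMod p) (A + t * B) = 0 := by
  have h2 : ringChar (ZMod p) ≠ 2 := by rwa [ZMod.ringChar_zmod_n]
  have key : ∑ t : ZMod p, quadraticChar (ZMod p) (A + t * B)
      = ∑ u : ZMod p, quadraticChar (ZMod p) u := by
    refine Fintype.sum_equiv ((Equiv.mulRight₀ B hB).trans (Equiv.addLeft A)) _ _ ?_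
    intro t
    simp
  rw [key]
  exact quadraticChar_sum_zero h2

lemma chi_abs_le (x : ZMod p) : |quadraticChar (ZMod p) x| ≤ 1 := by
  rcases eq_or_ne x 0 with h | h
  · subst h; simp
  · rcases quadraticChar_dichotomy h with h | h <;> simp [h]

/-- a general position tuple gives zero -/
lemma inner_zero (hp : p ≠ 2) (w : Fin 4 → ZMod p) (i : Fin 4) (hi : ∀ j, j ≠ i → w j ≠ w i) :
    ∑ c : Fin 4 → ZMod p, ∏ j, quadraticChar (ZMod p) (ev c (w j)) = 0 := by
  classical
  set P : Polynomial (ZMod p) := ∏ j ∈ univ.erase i, (Polynomial.X - Polynomial.C (w j)) with hP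
  have hdeg : P.natDegree < 4 := by
    rw [hP, Polynomial.natDegree_prod_of_monic _ _ fun j _ => Polynomial.monic_X_sub_C _]
    simp [Finset.card_erase_of_mem]
  set v : Fin 4 → ZMod p := fun k => P.coeff k with hv
  have hev : ∀ x, ev v x = P.eval x := by
    intro x
    rw [Polynomial.eval_eq_sum_range' hdeg, Finset.sum_range]
    rfl
  have hz : ∀ j, j ≠ i → ev v (w j) = 0 := by
    intro j hj
    rw [hev, hP, Polynomial.eval_prod]
    exact Finset.prod_eq_zero (Finset.mem_erase.2 ⟨hj, Finset.mem_univ j⟩) (by simp)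
  have hnz : ev v (w i) ≠ 0 := by
    rw [hev, hP, Polynomial.eval_prod, Finset.prod_ne_zero_iff]
    intro j hj
    have hji := (Finset.mem_erase.1 hj).1
    simp only [Polynomial.eval_sub, Polynomial.eval_X, Polynomial.eval_C]
    exact sub_ne_zero.2 (hi j hji).symm
  set T := ∑ c : Fin 4 → ZMod p, ∏ j, quadraticChar (ZMod p) (ev c (w j)) with hT
  have hshift : ∀ t : ZMod p, T = ∑ c : Fin 4 → ZMod p,
      ∏ j, quadraticChar (ZMod p) (ev c (w j) + t * ev v (w j)) := by
    intro t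
    rw [hT]
    refine (Fintype.sum_equiv (Equiv.addRight (fun k => t * v k)) _ _ ?_).symm
    intro c
    refine Finset.prod_congr rfl fun j _ => ?_
    rw [← ev_add_smul]
    rfl
  have hsum : (p : ℤ) * T = 0 := by
    have h1 : (p : ℤ) * T = ∑ t : ZMod p, T := by
      simp [ZMod.card]
    rw [h1, Finset.sum_congr rfl fun t _ => hshift t, Finset.sum_comm]
    refine Finset.sum_eq_zero fun c _ => ?_
    have h2 : ∀ t : ZMod p, ∏ j, quadraticChar (ZMod p) (ev c (w j) + t * ev v (w j))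
        = quadraticChar (ZMod p) (ev c (w i) + t * ev v (w i)) *
          ∏ j ∈ univ.erase i, quadraticChar (ZMod p) (ev c (w j)) := by
      intro t
      rw [← Finset.mul_prod_erase univ _ (Finset.mem_univ i)]
      congr 1
      refine Finset.prod_congr rfl fun j hj => ?_
      rw [hz j (Finset.mem_erase.1 hj).1, mul_zero, add_zero]
    rw [Finset.sum_congr rfl fun t _ => h2 t, ← Finset.sum_mul, sum_chi_affine hp _ _ hnz, zero_mul]
  have hp0 : (p : ℤ) ≠ 0 := by exact_mod_cast (Fact.out : p.Prime).ne_zero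
  exact (mul_eq_zero.1 hsum).resolve_left hp0

lemma inner_le (w : Fin 4 → ZMod p) :
    ∑ c : Fin 4 → ZMod p, ∏ j, quadraticChar (ZMod p) (ev c (w j)) ≤ (p : ℤ) ^ 4 := by
  have h1 : ∀ c : Fin 4 → ZMod p, ∏ j, quadraticChar (ZMod p) (ev c (w j)) ≤ 1 := by
    intro c
    refine le_trans (le_abs_self _) ?_
    rw [Finset.abs_prod]
    exact Finset.prod_le_one (fun _ _ => abs_nonneg _) fun j _ => chi_abs_le _
  calc ∑ c : Fin 4 → ZMod p, ∏ j, quadraticChar (ZMod p) (ev c (w j))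
      ≤ ∑ c : Fin 4 → ZMod p, (1 : ℤ) := Finset.sum_le_sum fun c _ => h1 c
    _ = (p : ℤ) ^ 4 := by
        simp [ZMod.card]

/-- the degenerate tuples -/
lemma card_bad : ((univ.filter fun w : Fin 4 → ZMod p =>
    (w 0 = w 1 ∧ w 2 = w 3) ∨ (w 0 = w 2 ∧ w 1 = w 3) ∨ (w 0 = w 3 ∧ w 1 = w 2)).card : ℤ)
      ≤ 3 * (p : ℤ) ^ 2 := by
  classical
  have h : (univ.filter fun w : Fin 4 → ZMod p =>
    (w 0 = w 1 ∧ w 2 = w 3) ∨ (w 0 = w 2 ∧ w 1 = w 3) ∨ (w 0 = w 3 ∧ w 1 = w 2)) ⊆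
      ((univ : Finset (ZMod p × ZMod p)).image fun q => ![q.1, q.1, q.2, q.2]) ∪
      (((univ : Finset (ZMod p × ZMod p)).image fun q => ![q.1, q.2, q.1, q.2]) ∪
      ((univ : Finset (ZMod p × ZMod p)).image fun q => ![q.1, q.2, q.2, q.1])) := by
    intro w hw
    rw [Finset.mem_filter] at hw
    rcases hw.2 with ⟨h1, h2⟩ | ⟨h1, h2⟩ | ⟨h1, h2⟩
    · refine Finset.mem_union_left _ (Finset.mem_image.2 ⟨(w 0, w 2), Finset.mem_univ _, ?_⟩)
      funext k; fin_cases k <;> simp [h1, h2]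
    · refine Finset.mem_union_right _ (Finset.mem_union_left _
        (Finset.mem_image.2 ⟨(w 0, w 1), Finset.mem_univ _, ?_⟩))
      funext k; fin_cases k <;> simp [h1, h2]
    · refine Finset.mem_union_right _ (Finset.mem_union_right _
        (Finset.mem_image.2 ⟨(w 0, w 1), Finset.mem_univ _, ?_⟩))
      funext k; fin_cases k <;> simp [h1, h2]
  have hc : ∀ f : ZMod p × ZMod p → (Fin 4 → ZMod p),
      ((univ : Finset (ZMod p × ZMod p)).image f).card ≤ p ^ 2 := by
    intro f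
    refine le_trans Finset.card_image_le ?_
    simp [ZMod.card, sq]
  have := (Finset.card_le_card h).trans ((Finset.card_union_le _ _).trans
    (Nat.add_le_add (hc _) ((Finset.card_union_le _ _).trans (Nat.add_le_add (hc _) (hc _)))))
  have h3 : (univ.filter fun w : Fin 4 → ZMod p =>
    (w 0 = w 1 ∧ w 2 = w 3) ∨ (w 0 = w 2 ∧ w 1 = w 3) ∨ (w 0 = w 3 ∧ w 1 = w 2)).card
      ≤ 3 * p ^ 2 := by
    refine this.trans ?_
    omega
  exact_mod_cast h3

/-- fourth moment -/
lemma moment_le (hp : p ≠ 2) :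
    ∑ c : Fin 4 → ZMod p, (∑ w : ZMod p, quadraticChar (ZMod p) (ev c w)) ^ 4
      ≤ 3 * (p : ℤ) ^ 6 := by
  classical
  have h1 : ∀ c : Fin 4 → ZMod p, (∑ w : ZMod p, quadraticChar (ZMod p) (ev c w)) ^ 4
      = ∑ w : Fin 4 → ZMod p, ∏ j, quadraticChar (ZMod p) (ev c (w j)) := by
    intro c
    rw [Fintype.sum_pow]
  rw [Finset.sum_congr rfl fun c _ => h1 c, Finset.sum_comm]
  set bad := (univ.filter fun w : Fin 4 → ZMod p =>
    (w 0 = w 1 ∧ w 2 = w 3) ∨ (w 0 = w 2 ∧ w 1 = w 3) ∨ (w 0 = w 3 ∧ w 1 = w 2)) with hbad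
  have h2 : ∀ w : Fin 4 → ZMod p,
      ∑ c : Fin 4 → ZMod p, ∏ j, quadraticChar (ZMod p) (ev c (w j))
        ≤ if w ∈ bad then (p : ℤ) ^ 4 else 0 := by
    intro w
    split_ifs with hw
    · exact inner_le w
    · have : ∃ i : Fin 4, ∀ j, j ≠ i → w j ≠ w i := by
        by_contra hcon
        push Not at hcon
        apply hw
        rw [hbad, Finset.mem_filter]
        refine ⟨Finset.mem_univ _, ?_⟩
        obtain ⟨j0, hj0, e0⟩ := hcon 0
        obtain ⟨j1, hj1, e1⟩ := hcon 1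
        obtain ⟨j2, hj2, e2⟩ := hcon 2
        obtain ⟨j3, hj3, e3⟩ := hcon 3
        fin_cases j0 <;> fin_cases j1 <;> fin_cases j2 <;> fin_cases j3 <;>
          simp_all
      obtain ⟨i, hi⟩ := this
      exact (inner_zero hp w i hi).le
  refine (Finset.sum_le_sum fun w _ => h2 w).trans ?_
  rw [Finset.sum_ite_mem, Finset.univ_inter, Finset.sum_const, nsmul_eq_mul]
  have := card_bad (p := p)
  rw [← hbad] at this
  calc (bad.card : ℤ) * (p : ℤ) ^ 4 ≤ (3 * (p : ℤ) ^ 2) * (p : ℤ) ^ 4 :=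
        mul_le_mul_of_nonneg_right this (by positivity)
    _ = 3 * (p : ℤ) ^ 6 := by ring

end moment

section fibre

variable {p : ℕ} [Fact p.Prime]

/-- coefficients of `v * h (s w + t)` for `h = a x^3 + b x^2 + c x + d` -/
def co (a b c d : ZMod p) (q : ZMod p × ZMod p × ZMod p) : Fin 4 → ZMod p :=
  ![q.2.2 * (a * q.2.1 ^ 3 + b * q.2.1 ^ 2 + c * q.2.1 + d),
    q.2.2 * q.1 * (3 * a * q.2.1 ^ 2 + 2 * b * q.2.1 + c),
    q.2.2 * q.1 ^ 2 * (3 * a * q.2.1 + b),
    q.2.2 * a * q.1 ^ 3]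

lemma ev_co (a b c d : ZMod p) (q : ZMod p × ZMod p × ZMod p) (w : ZMod p) :
    ev (co a b c d q) w = q.2.2 * (a * (q.1 * w + q.2.1) ^ 3 + b * (q.1 * w + q.2.1) ^ 2
      + c * (q.1 * w + q.2.1) + d) := by
  simp only [ev, co, Fin.sum_univ_four]
  simp only [Matrix.cons_val_zero, Matrix.cons_val_one, Matrix.cons_val, Fin.val_zero,
    Fin.val_one, Fin.val_two, pow_zero, pow_one, mul_one]
  have h3 : ((3 : Fin 4) : ℕ) = 3 := rfl
  rw [h3]
  ring

/-- parameters -/
def par : Finset (ZMod p × ZMod p × ZMod p) :=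
  univ.filter fun q => q.1 ≠ 0 ∧ q.2.2 ≠ 0

lemma card_par : ((par (p := p)).card : ℤ) = p * ((p : ℤ) - 1) ^ 2 := by
  classical
  have h : par (p := p) = ((univ : Finset (ZMod p)).erase 0) ×ˢ
      ((univ : Finset (ZMod p)) ×ˢ ((univ : Finset (ZMod p)).erase 0)) := by
    ext q
    simp [par]
  have h1 : 1 ≤ p := (Fact.out : p.Prime).one_lt.le
  rw [h, Finset.card_product, Finset.card_product, Finset.card_erase_of_mem (Finset.mem_univ _)]
  simp only [Finset.card_univ, ZMod.card]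
  push_cast [Nat.cast_sub h1]
  ring

lemma sum_co (a b c d : ZMod p) (q : ZMod p × ZMod p × ZMod p) (hq : q ∈ par (p := p)) :
    (∑ w : ZMod p, quadraticChar (ZMod p) (ev (co a b c d q) w)) ^ 4 =
      (∑ x : ZMod p, quadraticChar (ZMod p) (a * x ^ 3 + b * x ^ 2 + c * x + d)) ^ 4 := by
  obtain ⟨h1, h2⟩ := (Finset.mem_filter.1 hq).2
  have e1 : ∑ w : ZMod p, quadraticChar (ZMod p) (ev (co a b c d q) w)
      = quadraticChar (ZMod p) q.2.2 *
        ∑ x : ZMod p, quadraticChar (ZMod p) (a * x ^ 3 + b * x ^ 2 + c * x + d) := by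
    rw [Finset.mul_sum]
    refine Fintype.sum_equiv ((Equiv.mulLeft₀ q.1 h1).trans (Equiv.addRight q.2.1)) _ _ ?_
    intro w
    rw [ev_co, map_mul]
    simp
  rw [e1, mul_pow]
  rcases quadraticChar_dichotomy h2 with h | h <;> simp [h]

lemma card_pow_eq_le (n : ℕ) (hn : 0 < n) (z : ZMod p) :
    (univ.filter fun s : ZMod p => s ^ n = z).card ≤ n := by
  classical
  have h : (univ.filter fun s : ZMod p => s ^ n = z) ⊆ (Polynomial.nthRoots n z).toFinset := by
    intro s hs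
    rw [Multiset.mem_toFinset, Polynomial.mem_nthRoots hn]
    exact (Finset.mem_filter.1 hs).2
  exact (Finset.card_le_card h).trans
    ((Multiset.toFinset_card_le _).trans (Polynomial.card_nthRoots n z))

lemma three_ne {p : ℕ} [Fact p.Prime] (hp : 3 < p) : (3 : ZMod p) ≠ 0 := by
  intro h
  have : ((3 : ℕ) : ZMod p) = 0 := by exact_mod_cast h
  rw [ZMod.natCast_eq_zero_iff] at this
  exact absurd (Nat.le_of_dvd (by norm_num) this) (by omega)

lemma fibre_le (hp : 3 < p) (a b c d : ZMod p) (ha : a ≠ 0)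
    (hcube : ¬ ∃ r, ∀ x, a * x ^ 3 + b * x ^ 2 + c * x + d = a * (x - r) ^ 3)
    (C : Fin 4 → ZMod p) :
    ((par (p := p)).filter fun q => co a b c d q = C).card ≤ 3 := by
  classical
  have h3 : (3 : ZMod p) ≠ 0 := three_ne hp
  set Fb := (par (p := p)).filter fun q => co a b c d q = C with hFb
  have hmem : ∀ q ∈ Fb, (q.1 ≠ 0 ∧ q.2.2 ≠ 0) ∧ co a b c d q = C := by
    intro q hq
    rw [hFb, Finset.mem_filter] at hq
    exact ⟨(Finset.mem_filter.1 hq.1).2, hq.2⟩
  -- the four equations for a pair in the same fibre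
  have heq : ∀ q ∈ Fb, ∀ q' ∈ Fb,
      q.2.2 * a * q.1 ^ 3 = q'.2.2 * a * q'.1 ^ 3 ∧
      q.2.2 * q.1 ^ 2 * (3 * a * q.2.1 + b) = q'.2.2 * q'.1 ^ 2 * (3 * a * q'.2.1 + b) ∧
      q.2.2 * q.1 * (3 * a * q.2.1 ^ 2 + 2 * b * q.2.1 + c)
        = q'.2.2 * q'.1 * (3 * a * q'.2.1 ^ 2 + 2 * b * q'.2.1 + c) ∧
      q.2.2 * (a * q.2.1 ^ 3 + b * q.2.1 ^ 2 + c * q.2.1 + d)
        = q'.2.2 * (a * q'.2.1 ^ 3 + b * q'.2.1 ^ 2 + c * q'.2.1 + d) := by
    intro q hq q' hq'
    have e := (hmem q hq).2.trans (hmem q' hq').2.symm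
    have e0 := congrFun e 0
    have e1 := congrFun e 1
    have e2 := congrFun e 2
    have e3 := congrFun e 3
    simp only [co, Matrix.cons_val_zero, Matrix.cons_val_one, Matrix.cons_val] at e0 e1 e2 e3
    exact ⟨e3, e2, e1, e0⟩
  -- injectivity of the first coordinate
  have hinj : Set.InjOn (fun q : ZMod p × ZMod p × ZMod p => q.1) (Fb : Set _) := by
    intro q hq q' hq' hqq
    obtain ⟨⟨hs, hv⟩, -⟩ := hmem q hq
    obtain ⟨⟨hs', hv'⟩, -⟩ := hmem q' hq'
    obtain ⟨e3, e2, -, -⟩ := heq q hq q' hq'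
    simp only at hqq
    rw [← hqq] at e3 e2
    have hv2 : q.2.2 = q'.2.2 := by
      have := mul_right_cancel₀ (pow_ne_zero 3 hs) e3
      exact mul_right_cancel₀ ha this
    rw [← hv2] at e2
    have ht : q.2.1 = q'.2.1 := by
      have h4 := mul_left_cancel₀ (mul_ne_zero hv (pow_ne_zero 2 hs)) e2
      have h5 : 3 * a * q.2.1 = 3 * a * q'.2.1 := add_right_cancel h4
      exact mul_left_cancel₀ (mul_ne_zero h3 ha) h5
    exact Prod.ext hqq (Prod.ext ht hv2)
  -- all first coordinates have the same square or the same cube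
  rcases Finset.eq_empty_or_nonempty Fb with hem | ⟨q0, hq0⟩
  · rw [hem]; simp
  have hkey : (∀ q ∈ Fb, q.1 ^ 2 = q0.1 ^ 2) ∨ (∀ q ∈ Fb, q.1 ^ 3 = q0.1 ^ 3) := by
    set m := b / (3 * a) with hm
    have hb : b = 3 * a * m := by rw [hm]; field_simp
    set g := c - 3 * a * m ^ 2 with hg
    have hc : c = 3 * a * m ^ 2 + g := by rw [hg]; ring
    set e := d - a * m ^ 3 - g * m with he
    have hd : d = a * m ^ 3 + g * m + e := by rw [he]; ring
    have hge : g ≠ 0 ∨ e ≠ 0 := by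
      by_contra hcon
      push Not at hcon
      apply hcube
      refine ⟨-m, fun x => ?_⟩
      rw [hd, hc, hb, hcon.1, hcon.2]
      ring
    obtain ⟨⟨hs0, hv0⟩, -⟩ := hmem q0 hq0
    -- for every q in the fibre
    have main : ∀ q ∈ Fb, (g = 0 ∨ q.1 ^ 2 = q0.1 ^ 2) ∧ (g = 0 → q.1 ^ 3 = q0.1 ^ 3) := by
      intro q hq
      obtain ⟨⟨hs, hv⟩, -⟩ := hmem q hq
      obtain ⟨e3, e2, e1, e0⟩ := heq q hq q0 hq0
      obtain ⟨s, t, v⟩ := q
      obtain ⟨s0, t0, v0⟩ := q0
      simp only at hs hv hs0 hv0 e3 e2 e1 e0 ⊢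
      -- k = s / s0
      obtain ⟨k, hk⟩ : ∃ k, s = k * s0 := ⟨s / s0, by field_simp⟩
      have hk0 : k ≠ 0 := by rintro rfl; apply hs; rw [hk]; ring
      have hv0' : v0 = v * k ^ 3 := by
        have h6 : v0 * (a * s0 ^ 3) = (v * k ^ 3) * (a * s0 ^ 3) := by
          rw [hk] at e3; linear_combination -e3
        exact mul_right_cancel₀ (mul_ne_zero ha (pow_ne_zero 3 hs0)) h6
      have hu : t + m = k * (t0 + m) := by
        have h7 : (v * k ^ 2 * s0 ^ 2 * (3 * a)) * (t + m)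
            = (v * k ^ 2 * s0 ^ 2 * (3 * a)) * (k * (t0 + m)) := by
          rw [hk, hb, hv0'] at e2
          linear_combination e2
        exact mul_left_cancel₀ (mul_ne_zero (mul_ne_zero (mul_ne_zero hv (pow_ne_zero 2 hk0))
          (pow_ne_zero 2 hs0)) (mul_ne_zero h3 ha)) h7
      have ht : t = k * (t0 + m) - m := by rw [← hu]; ring
      have hg2 : g * (k ^ 2 - 1) = 0 := by
        have h8 : (v * k * s0) * (g * (k ^ 2 - 1)) = 0 := by
          rw [hk, hb, hc, hv0', ht] at e1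
          linear_combination -e1
        exact (mul_eq_zero.1 h8).resolve_left (mul_ne_zero (mul_ne_zero hv hk0) hs0)
      refine ⟨?_, ?_⟩
      · rcases mul_eq_zero.1 hg2 with h | h
        · exact Or.inl h
        · right
          rw [hk]
          linear_combination s0 ^ 2 * h
      · intro hg0
        have he0 : e ≠ 0 := by
          rcases hge with h | h
          · exact absurd hg0 h
          · exact h
        have h9 : (v * e) * (k ^ 3 - 1) = 0 := by
          rw [hd, hc, hb, hv0', ht, hg0] at e0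
          linear_combination -e0
        have h10 := (mul_eq_zero.1 h9).resolve_left (mul_ne_zero hv he0)
        rw [hk]
        linear_combination s0 ^ 3 * h10
    by_cases hg0 : g = 0
    · exact Or.inr fun q hq => (main q hq).2 hg0
    · exact Or.inl fun q hq => ((main q hq).1).resolve_left hg0
  have hcard : Fb.card = (Fb.image fun q => q.1).card := (Finset.card_image_of_injOn hinj).symm
  rw [hcard]
  rcases hkey with h | h
  · refine (Finset.card_le_card (t := univ.filter fun s : ZMod p => s ^ 2 = q0.1 ^ 2) ?_).trans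
      ((card_pow_eq_le 2 (by norm_num) _).trans (by norm_num))
    intro s hs
    obtain ⟨q, hq, rfl⟩ := Finset.mem_image.1 hs
    exact Finset.mem_filter.2 ⟨Finset.mem_univ _, h q hq⟩
  · refine (Finset.card_le_card (t := univ.filter fun s : ZMod p => s ^ 3 = q0.1 ^ 3) ?_).trans
      (card_pow_eq_le 3 (by norm_num) _)
    intro s hs
    obtain ⟨q, hq, rfl⟩ := Finset.mem_image.1 hs
    exact Finset.mem_filter.2 ⟨Finset.mem_univ _, h q hq⟩

end fibre

/-- H2: elementary bound for cubic character sums -/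
theorem cubic_bound {p : ℕ} [Fact p.Prime] (hp : 3 < p) (a b c d : ZMod p) (ha : a ≠ 0)
    (hcube : ¬ ∃ r, ∀ x, a * x ^ 3 + b * x ^ 2 + c * x + d = a * (x - r) ^ 3) :
    (∑ x : ZMod p, quadraticChar (ZMod p) (a * x ^ 3 + b * x ^ 2 + c * x + d)) ^ 4 * (p - 1) ^ 2 ≤
      9 * (p : ℤ) ^ 5 := by
  classical
  set S := ∑ x : ZMod p, quadraticChar (ZMod p) (a * x ^ 3 + b * x ^ 2 + c * x + d) with hS
  set g : (Fin 4 → ZMod p) → ℤ :=
    fun C => (∑ w : ZMod p, quadraticChar (ZMod p) (ev C w)) ^ 4 with hg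
  have hgnn : ∀ C, 0 ≤ g C := fun C => by
    rw [hg]; positivity
  have h1 : ∑ q ∈ par (p := p), g (co a b c d q) = (p * ((p : ℤ) - 1) ^ 2) * S ^ 4 := by
    rw [← card_par, Finset.sum_congr rfl fun q hq => sum_co a b c d q hq, Finset.sum_const,
      nsmul_eq_mul]
  have h2 : ∑ q ∈ par (p := p), g (co a b c d q) ≤ 3 * ∑ C : Fin 4 → ZMod p, g C := by
    rw [← Finset.sum_fiberwise_of_maps_to (s := par (p := p)) (t := univ)
      (g := fun q => co a b c d q) (fun _ _ => Finset.mem_univ _), Finset.mul_sum]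
    refine Finset.sum_le_sum fun C _ => ?_
    have h3 : ∑ q ∈ (par (p := p)).filter (fun q => co a b c d q = C), g (co a b c d q)
        = (((par (p := p)).filter fun q => co a b c d q = C).card : ℤ) * g C := by
      rw [Finset.sum_congr rfl fun q hq => by rw [(Finset.mem_filter.1 hq).2], Finset.sum_const,
        nsmul_eq_mul]
    rw [h3]
    have h4 : (((par (p := p)).filter fun q => co a b c d q = C).card : ℤ) ≤ 3 := by
      exact_mod_cast fibre_le hp a b c d ha hcube C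
    exact mul_le_mul_of_nonneg_right h4 (hgnn C)
  have h5 := moment_le (p := p) (by omega)
  have hp0 : (0 : ℤ) < p := by exact_mod_cast (by omega : 0 < p)
  have h6 : (p : ℤ) * (S ^ 4 * (p - 1) ^ 2) ≤ p * (9 * (p : ℤ) ^ 5) := by
    have h7 : (p * ((p : ℤ) - 1) ^ 2) * S ^ 4 ≤ 3 * (3 * (p : ℤ) ^ 6) := by
      rw [← h1]
      exact h2.trans (by linarith [h5])
    linarith [h7, show (p : ℤ) * (S ^ 4 * (p - 1) ^ 2) = (p * ((p : ℤ) - 1) ^ 2) * S ^ 4 by ring,
      show 3 * (3 * (p : ℤ) ^ 6) = p * (9 * (p : ℤ) ^ 5) by ring]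
  exact le_of_mul_le_mul_left h6 hp0

end KumWA
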